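import Pool.Agent.MP_9a6faa_lc.W.B

namespace Pool.Agent.Results.MP_9a6faa_lc.OmegaOneMeas

open Pool.Agent.MP_9a6faa_lc

universe u

/-- If there is a measurable cardinal, then there is a countable transitive model `M` of ZFC such
that the first uncountable ordinal of `M` is measurable in the cofinality quantifier model `C*`
computed in `M`. -/
theorem result (X : Type u) [Uncountable X] (U : Ultrafilter X)
    (hU : CardinalInterFilter (U : Filter X) (Cardinal.mk X)) (np : ∀ x, {x} ∉ U) :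
    ∃ (M : Set ZFSet.{u}) (E : M → M → Prop), (∀ x y, E x y ↔ x.1 ∈ y.1) ∧
      M.Countable ∧ (∀ x ∈ M, ∀ y ∈ x, y ∈ M) ∧ IsZFC E ∧
      ∃ L : M → Set M, IsHier E (CofOm E) L ∧
        ∃ k : {x : M // ∃ a, IsOrd E a ∧ x ∈ L a},
          W.IsOmegaOne E k.1 ∧ IsMeas (fun x y => E x.1 y.1) k := by
  let _ : W.Pat := ⟨True⟩
  obtain ⟨μ⟩ := exists_meas X U hU np
  obtain ⟨g⟩ := W.exists_gen (m := μ.mach) μ.hω
  obtain ⟨k, h₁, h₂, h₃, h₄⟩ := W.main μ g
  exact ⟨{x | g.InM x}, g.E, fun _ _ => Iff.rfl,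
    Set.countable_coe_iff.1 (inferInstanceAs (Countable g.M)),
    fun _ hx _ hy => g.trP.tr hx hy, g.isZFC, g.L, g.isHier, k, ⟨h₂, h₃, h₄.2 trivial⟩, h₁⟩

end Pool.Agent.Results.MP_9a6faa_lc.OmegaOneMeas
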